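import Mathlib

/-!
# Flarbs of anchored subtrees of binary trees

Binary trees are Mathlib's `BinaryTree ℕ`; the label of a node is its name.
-/

set_option autoImplicit false

namespace Pool.Agent.N609.Flarb

/-- The root of the tree (no element if the tree is empty). -/
def rootOf : BinaryTree ℕ → Finset ℕ
  | .nil => ∅
  | .node a _ _ => {a}

/-- The set of the nodes. -/
def nodes : BinaryTree ℕ → Finset ℕ
  | .nil => ∅
  | .node a l r => insert a (nodes l ∪ nodes r)

/-- The relationships parent / left child, `(p, false, c)`, and parent / right child,
`(p, true, c)`. -/
def links : BinaryTree ℕ → Finset (ℕ × Bool × ℕ)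
  | .nil => ∅
  | .node a l r => (rootOf l).image (fun c => (a, false, c)) ∪
      (rootOf r).image (fun c => (a, true, c)) ∪ (links l ∪ links r)

/-- `S` is an anchored subtree of `T`: a connected set of nodes that contains the root, that is, a
set of nodes that contains the root and with each node also its parent (empty if `T` is empty). -/
def Anchored (S : Finset ℕ) (T : BinaryTree ℕ) : Prop :=
  S ⊆ nodes T ∧ rootOf T ⊆ S ∧ ∀ p d c, (p, d, c) ∈ links T → c ∈ S → p ∈ S

/-- The symmetric traversal of `T`, where only the nodes in `S` are written out, and the subtrees
hanging off `S` are kept: a list of pairs (hanging subtree, node of `S` that follows it), and the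
subtree that hangs after the last node of `S`. -/
def cut (S : Finset ℕ) : BinaryTree ℕ → List (BinaryTree ℕ × ℕ) × BinaryTree ℕ
  | .nil => ([], .nil)
  | .node a l r =>
    if a ∈ S then ((cut S l).1 ++ ((cut S l).2, a) :: (cut S r).1, (cut S r).2)
    else ([], .node a l r)

/-- The rightmost path through the given nodes, where the left subtree of each node is the given
one; `t` is the right subtree of the last node. -/
def rightPath : List (BinaryTree ℕ × ℕ) → BinaryTree ℕ → BinaryTree ℕ
  | [], t => t
  | (g, a) :: L, t => .node a g (rightPath L t)

/-- The flarb of the anchored subtree `S` of `T`, `r` being the new root: let `T'` be the tree with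
root `r`, left subtree `T` and no right child; the nodes of `S ∪ {r}` are rearranged into a rightmost
path, with the same symmetric order and the same hanging subtrees. -/
def flarb (T : BinaryTree ℕ) (S : Finset ℕ) (r : ℕ) : BinaryTree ℕ :=
  rightPath (cut (insert r S) (.node r T .nil)).1 (cut (insert r S) (.node r T .nil)).2

/-- the nodes in symmetric order -/
def inorder : BinaryTree ℕ → List ℕ
  | .nil => []
  | .node a l r => inorder l ++ a :: inorder r

theorem inorder_rightPath (L : List (BinaryTree ℕ × ℕ)) (t : BinaryTree ℕ) :
    inorder (rightPath L t) = (L.flatMap fun p => inorder p.1 ++ [p.2]) ++ inorder t := by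
  induction L with
  | nil => rfl
  | cons p L ih => obtain ⟨g, a⟩ := p; simp [rightPath, inorder, ih]

theorem inorder_cut (S : Finset ℕ) (T : BinaryTree ℕ) :
    inorder (rightPath (cut S T).1 (cut S T).2) = inorder T := by
  induction T with
  | nil => rfl
  | node a l r hl hr =>
    by_cases h : a ∈ S
    · rw [inorder_rightPath] at hl hr ⊢
      simp only [cut, h, if_true, inorder, List.flatMap_append, List.flatMap_cons]
      rw [← hl, ← hr]
      simp
    · simp [cut, h, rightPath]

/-- A check of the definition: the symmetric order is preserved, the new node comes last. -/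
theorem inorder_flarb (T : BinaryTree ℕ) (S : Finset ℕ) (r : ℕ) :
    inorder (flarb T S r) = inorder T ++ [r] :=
  (inorder_cut _ _).trans rfl

/-- `T 0, …, T n` is a sequence of `n` flarbs of arbitrary anchored subtrees, starting from the empty
tree. The new node of the `(i + 1)`-st flarb is `i`. -/
def FlarbSeq (n : ℕ) (T : ℕ → BinaryTree ℕ) : Prop :=
  T 0 = .nil ∧ ∀ i < n, ∃ S, Anchored S (T i) ∧ T (i + 1) = flarb (T i) S i

/-- The number of the relationships parent / left child and parent / right child of `T` that are not
present any more in `T'`. -/
def removed (T T' : BinaryTree ℕ) : ℕ := (links T \ links T').card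

end Pool.Agent.N609.Flarb
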