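import Pool.Agent.N609.Flarb.Defs

set_option autoImplicit false

namespace Pool.Agent.N609.Flarb

open Finset

/-- the rightmost path with the nodes `b, b + 1, …, b + c - 1`, without left subtrees -/
def chain : ℕ → ℕ → BinaryTree ℕ
  | _, 0 => .nil
  | b, c + 1 => .node b .nil (chain (b + 1) c)

/-- the nodes of the rightmost path: each entry `c` of the list stands for a node whose left subtree
is a chain with `c` nodes -/
def enc : ℕ → List ℕ → List (BinaryTree ℕ × ℕ)
  | _, [] => []
  | b, c :: L => (chain b c, b + c) :: enc (b + c + 1) L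

def size : List ℕ → ℕ
  | [] => 0
  | c :: L => c + 1 + size L

def rel : List ℕ → List ℕ
  | [] => []
  | 0 :: L => 0 :: rel L
  | (c + 1) :: L => 0 :: c :: rel L

def nz : List ℕ → ℕ
  | [] => 0
  | 0 :: L => nz L
  | (_ + 1) :: L => nz L + 1

def sel : ℕ → List ℕ → Finset ℕ
  | _, [] => ∅
  | b, 0 :: L => insert b (sel (b + 1) L)
  | b, (c + 1) :: L => insert b (insert (b + c + 1) (sel (b + c + 2) L))

def leftL : ℕ → List ℕ → Finset (ℕ × Bool × ℕ)
  | _, [] => ∅
  | b, 0 :: L => leftL (b + 1) L
  | b, (c + 1) :: L => insert (b + c + 1, false, b) (leftL (b + c + 2) L)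

theorem size_append (L M : List ℕ) : size (L ++ M) = size L + size M := by
  induction L with
  | nil => simp [size]
  | cons c L ih => simp [size, ih]; omega

theorem size_rel (L : List ℕ) : size (rel L) = size L := by
  induction L with
  | nil => rfl
  | cons c L ih => cases c <;> simp [size, rel, ih]; omega

theorem size_zeros (q : ℕ) : size (List.replicate q 0) = q := by
  induction q with
  | zero => rfl
  | succ q ih => rw [List.replicate_succ]; simp [size, ih]; omega

theorem enc_append (L M : List ℕ) (b : ℕ) : enc b (L ++ M) = enc b L ++ enc (b + size L) M := by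
  induction L generalizing b with
  | nil => simp [enc, size]
  | cons c L ih =>
    simp only [List.cons_append, enc, ih, size]
    rw [show b + c + 1 + size L = b + (c + 1 + size L) by omega]

theorem rightPath_append (L M : List (BinaryTree ℕ × ℕ)) (t : BinaryTree ℕ) :
    rightPath (L ++ M) t = rightPath L (rightPath M t) := by
  induction L with
  | nil => rfl
  | cons a L ih => simp [rightPath, ih]

theorem path_zeros (q b : ℕ) : rightPath (enc b (List.replicate q 0)) .nil = chain b q := by
  induction q generalizing b with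
  | zero => rfl
  | succ q ih => rw [List.replicate_succ]; simp [enc, rightPath, chain, ih]

theorem sel_bd (L : List ℕ) (b x : ℕ) (h : x ∈ sel b L) : b ≤ x ∧ x < b + size L := by
  induction L generalizing b with
  | nil => simp [sel] at h
  | cons c L ih =>
    cases c with
    | zero =>
      simp only [sel, mem_insert] at h
      rcases h with h | h
      · simp [size]; omega
      · have := ih _ h; simp only [size]; omega
    | succ c =>
      simp only [sel, mem_insert] at h
      rcases h with h | h | h
      · simp only [size]; omega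
      · simp only [size]; omega
      · have := ih _ h; simp only [size]; omega

theorem cut_chain_out (S : Finset ℕ) (b c : ℕ) (h : ∀ x, b ≤ x → x < b + c → x ∉ S) :
    cut S (chain b c) = ([], chain b c) := by
  cases c with
  | zero => rfl
  | succ c =>
    have : b ∉ S := h b le_rfl (by omega)
    simp [chain, cut, this]

theorem cut_chain_one (S : Finset ℕ) (b c : ℕ) (hb : b ∈ S)
    (h : ∀ x, b + 1 ≤ x → x < b + 1 + c → x ∉ S) :
    cut S (chain b (c + 1)) = ([(.nil, b)], chain (b + 1) c) := by
  have h1 := cut_chain_out S (b + 1) c h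
  simp [chain, cut, hb, h1]

/-- the set `S` is as in `sel` on the labels of `L` -/
def Agree (S : Finset ℕ) (b : ℕ) (L : List ℕ) : Prop :=
  ∀ x, b ≤ x → x < b + size L → (x ∈ S ↔ x ∈ sel b L)

theorem agree_zero {S : Finset ℕ} {b : ℕ} {L : List ℕ} (h : Agree S b (0 :: L)) :
    b ∈ S ∧ Agree S (b + 1) L := by
  refine ⟨?_, ?_⟩
  · rw [h b le_rfl (by simp only [size]; omega)]; simp [sel]
  · intro x h1 h2
    rw [h x (by omega) (by simp only [size]; omega)]
    simp only [sel, mem_insert]
    constructor
    · rintro (h3 | h3)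
      · omega
      · exact h3
    · intro h3; exact Or.inr h3

theorem agree_succ {S : Finset ℕ} {b c : ℕ} {L : List ℕ} (h : Agree S b ((c + 1) :: L)) :
    b ∈ S ∧ (∀ x, b + 1 ≤ x → x < b + 1 + c → x ∉ S) ∧ b + c + 1 ∈ S ∧ Agree S (b + c + 2) L := by
  refine ⟨?_, ?_, ?_, ?_⟩
  · rw [h b le_rfl (by simp only [size]; omega)]; simp [sel]
  · intro x h1 h2
    rw [h x (by omega) (by simp only [size]; omega)]
    simp only [sel, mem_insert]
    rintro (h3 | h3 | h3)
    · omega
    · omega
    · have := sel_bd _ _ _ h3; omega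
  · rw [h _ (by omega) (by simp only [size]; omega)]; simp [sel]
  · intro x h1 h2
    rw [h x (by omega) (by simp only [size]; omega)]
    simp only [sel, mem_insert]
    constructor
    · rintro (h3 | h3 | h3)
      · omega
      · omega
      · exact h3
    · intro h3; exact Or.inr (Or.inr h3)

theorem cut_main (L : List ℕ) (b : ℕ) (S : Finset ℕ) (R : BinaryTree ℕ) (h : Agree S b L) :
    cut S (rightPath (enc b L) R) = (enc b (rel L) ++ (cut S R).1, (cut S R).2) := by
  induction L generalizing b with
  | nil => simp [enc, rightPath, rel]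
  | cons c L ih =>
    cases c with
    | zero =>
      obtain ⟨h1, h2⟩ := agree_zero h
      have h3 := ih (b + 1) h2
      simp [enc, rightPath, rel, chain, cut, h1, h3]
    | succ c =>
      obtain ⟨h1, h2, h3, h4⟩ := agree_succ h
      have h5 := ih (b + c + 2) h4
      have h3' : b + (c + 1) ∈ S := h3
      have e1 : b + (c + 1) + 1 = b + c + 2 := by omega
      have e2 : b + 0 + 1 + c = b + (c + 1) := by omega
      have e3 : b + 0 + 1 + c + 1 = b + c + 2 := by omega
      have h7 := cut_chain_out S (b + 1) c h2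
      simp only [enc, rightPath, rel, cut, h3', if_true, e1, h5, e2, chain]
      simp [h1, h7]

theorem links_node (a : ℕ) (l r : BinaryTree ℕ) (p : ℕ) (d : Bool) (x : ℕ) :
    (p, d, x) ∈ links (.node a l r) ↔ (p = a ∧ d = false ∧ x ∈ rootOf l) ∨
      (p = a ∧ d = true ∧ x ∈ rootOf r) ∨ (p, d, x) ∈ links l ∨ (p, d, x) ∈ links r := by
  simp only [links, mem_union, mem_image, Prod.mk.injEq]
  constructor
  · rintro ((⟨y, h1, h2, h3, h4⟩ | ⟨y, h1, h2, h3, h4⟩) | h | h)
    · subst h4; exact Or.inl ⟨h2.symm, h3.symm, h1⟩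
    · subst h4; exact Or.inr (Or.inl ⟨h2.symm, h3.symm, h1⟩)
    · exact Or.inr (Or.inr (Or.inl h))
    · exact Or.inr (Or.inr (Or.inr h))
  · rintro (⟨h1, h2, h3⟩ | ⟨h1, h2, h3⟩ | h | h)
    · exact Or.inl (Or.inl ⟨x, h3, h1.symm, h2.symm, rfl⟩)
    · exact Or.inl (Or.inr ⟨x, h3, h1.symm, h2.symm, rfl⟩)
    · exact Or.inr (Or.inl h)
    · exact Or.inr (Or.inr h)

theorem chain_links (b c p x : ℕ) (d : Bool) (h : (p, d, x) ∈ links (chain b c)) :
    d = true ∧ b + 1 ≤ x ∧ x < b + c := by
  induction c generalizing b with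
  | zero => simp [chain, links] at h
  | succ c ih =>
    rw [chain, links_node] at h
    rcases h with ⟨_, _, h3⟩ | ⟨_, h2, h3⟩ | h | h
    · simp [rootOf] at h3
    · cases c with
      | zero => simp [chain, rootOf] at h3
      | succ c =>
        simp only [chain, rootOf, mem_singleton] at h3
        exact ⟨h2, by omega, by omega⟩
    · simp [links] at h
    · have := ih _ h; exact ⟨this.1, by omega, by omega⟩

theorem closed (L : List ℕ) (b : ℕ) (S : Finset ℕ) (R : BinaryTree ℕ) (h : Agree S b L)
    (hR : ∀ p d c, (p, d, c) ∈ links R → c ∈ S → p ∈ S) :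
    ∀ p d c, (p, d, c) ∈ links (rightPath (enc b L) R) → c ∈ S → p ∈ S := by
  induction L generalizing b with
  | nil => simpa [enc, rightPath] using hR
  | cons c L ih =>
    intro p d x hx hxS
    cases c with
    | zero =>
      obtain ⟨h1, h2⟩ := agree_zero h
      simp only [enc, rightPath, chain] at hx
      rw [links_node] at hx
      rcases hx with ⟨h3, _, _⟩ | ⟨h3, _, _⟩ | h3 | h3
      · rw [h3]; exact h1
      · rw [h3]; exact h1
      · simp [links] at h3
      · exact ih _ h2 p d x h3 hxS
    | succ c =>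
      obtain ⟨h1, h2, h3, h4⟩ := agree_succ h
      simp only [enc, rightPath] at hx
      rw [links_node] at hx
      rcases hx with ⟨h5, _, _⟩ | ⟨h5, _, _⟩ | h5 | h5
      · rw [h5]; exact h3
      · rw [h5]; exact h3
      · obtain ⟨_, h6, h7⟩ := chain_links _ _ _ _ _ h5
        exact absurd hxS (h2 x h6 (by omega))
      · exact ih _ h4 p d x h5 hxS

theorem chain_nodes (b c x : ℕ) (h1 : b ≤ x) (h2 : x < b + c) : x ∈ nodes (chain b c) := by
  induction c generalizing b with
  | zero => omega
  | succ c ih =>
    rw [chain, nodes, mem_insert, mem_union]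
    rcases Nat.eq_or_lt_of_le h1 with h | h
    · exact Or.inl h.symm
    · exact Or.inr (Or.inr (ih _ h (by omega)))

theorem sel_nodes (L : List ℕ) (b : ℕ) (R : BinaryTree ℕ) :
    sel b L ⊆ nodes (rightPath (enc b L) R) := by
  induction L generalizing b with
  | nil => simp [sel]
  | cons c L ih =>
    intro x hx
    cases c with
    | zero =>
      simp only [sel, mem_insert] at hx
      simp only [enc, rightPath, nodes, mem_insert, mem_union]
      rcases hx with h | h
      · exact Or.inl h
      · exact Or.inr (Or.inr (ih _ h))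
    | succ c =>
      simp only [sel, mem_insert] at hx
      simp only [enc, rightPath, nodes, mem_insert, mem_union]
      rcases hx with h | h | h
      · exact Or.inr (Or.inl (chain_nodes _ _ _ (by omega) (by omega)))
      · exact Or.inl h
      · exact Or.inr (Or.inr (ih _ h))

theorem leftL_links (L : List ℕ) (b : ℕ) (R : BinaryTree ℕ) :
    leftL b L ⊆ links (rightPath (enc b L) R) := by
  induction L generalizing b with
  | nil => simp [leftL]
  | cons c L ih =>
    rintro ⟨p, d, x⟩ hx
    cases c with
    | zero =>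
      simp only [leftL] at hx
      simp only [enc, rightPath]
      rw [links_node]
      exact Or.inr (Or.inr (Or.inr (ih _ hx)))
    | succ c =>
      simp only [leftL, mem_insert] at hx
      simp only [enc, rightPath]
      rw [links_node]
      rcases hx with h | h
      · obtain ⟨rfl, rfl, rfl⟩ : p = b + c + 1 ∧ d = false ∧ x = b := by simpa using h
        exact Or.inl ⟨rfl, rfl, by simp [chain, rootOf]⟩
      · exact Or.inr (Or.inr (Or.inr (ih _ h)))

theorem links_leftL (L : List ℕ) (b p x : ℕ) (h : (p, false, x) ∈ links (rightPath (enc b L) .nil)) :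
    (p, false, x) ∈ leftL b L := by
  induction L generalizing b with
  | nil => simp [enc, rightPath, links] at h
  | cons c L ih =>
    simp only [enc, rightPath] at h
    rw [links_node] at h
    cases c with
    | zero =>
      simp only [leftL]
      rcases h with ⟨_, _, h1⟩ | ⟨_, h1, _⟩ | h1 | h1
      · simp [chain, rootOf] at h1
      · simp at h1
      · simp [chain, links] at h1
      · exact ih _ h1
    | succ c =>
      simp only [leftL, mem_insert]
      rcases h with ⟨h0, _, h1⟩ | ⟨_, h1, _⟩ | h1 | h1
      · simp only [chain, rootOf, mem_singleton] at h1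
        left
        rw [h0, h1]; rfl
      · simp at h1
      · have := (chain_links _ _ _ _ _ h1).1; simp at this
      · exact Or.inr (ih _ h1)

theorem leftL_bd (L : List ℕ) (b p x : ℕ) (d : Bool) (h : (p, d, x) ∈ leftL b L) :
    d = false ∧ b ≤ x ∧ x < p ∧ p < b + size L := by
  induction L generalizing b with
  | nil => simp [leftL] at h
  | cons c L ih =>
    cases c with
    | zero =>
      simp only [leftL] at h
      have := ih _ h
      simp only [size]
      exact ⟨this.1, by omega, by omega, by omega⟩
    | succ c =>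
      simp only [leftL, mem_insert] at h
      simp only [size]
      rcases h with h | h
      · obtain ⟨rfl, rfl, rfl⟩ : p = b + c + 1 ∧ d = false ∧ x = b := by simpa using h
        exact ⟨rfl, by omega, by omega, by omega⟩
      · have := ih _ h
        exact ⟨this.1, by omega, by omega, by omega⟩

theorem leftL_card (L : List ℕ) (b : ℕ) : (leftL b L).card = nz L := by
  induction L generalizing b with
  | nil => rfl
  | cons c L ih =>
    cases c with
    | zero => simp only [leftL, nz, ih]
    | succ c =>
      simp only [leftL, nz]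
      rw [card_insert_of_notMem, ih]
      intro h
      have := leftL_bd _ _ _ _ _ h
      omega

theorem leftL_disj (L M : List ℕ) (b p x : ℕ) (d : Bool) (h : (p, d, x) ∈ leftL b L) :
    (p, d, x) ∉ leftL b (rel L ++ M) := by
  induction L generalizing b with
  | nil => simp [leftL] at h
  | cons c L ih =>
    cases c with
    | zero =>
      simp only [leftL, rel, List.cons_append] at h ⊢
      exact ih _ h
    | succ c =>
      simp only [leftL, mem_insert] at h
      intro h'
      simp only [rel, List.cons_append, leftL] at h'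
      cases c with
      | zero =>
        simp only [leftL] at h'
        rcases h with h | h
        · obtain ⟨rfl, rfl, rfl⟩ : p = b + 0 + 1 ∧ d = false ∧ x = b := by simpa using h
          have := leftL_bd _ _ _ _ _ h'
          omega
        · exact ih _ h h'
      | succ c =>
        simp only [leftL, mem_insert] at h'
        rcases h with h | h
        · obtain ⟨rfl, rfl, rfl⟩ : p = b + (c + 1) + 1 ∧ d = false ∧ x = b := by simpa using h
          rcases h' with h' | h'
          · have : x = x + 1 := by
              have := congrArg (fun t => t.2.2) h'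
              simpa using this
            omega
          · have := leftL_bd _ _ _ _ _ h'
            omega
        · rcases h' with h' | h'
          · have h1 := leftL_bd _ _ _ _ _ h
            obtain ⟨h2, _, h3⟩ : p = b + 1 + c + 1 ∧ d = false ∧ x = b + 1 := by simpa using h'
            omega
          · rw [show b + 1 + c + 2 = b + (c + 1) + 2 by omega] at h'
            exact ih _ h h'

/-! ### One flarb -/

/-- the tree of a list -/
def tree (L : List ℕ) : BinaryTree ℕ := rightPath (enc 0 L) .nil

theorem step (L : List ℕ) (q : ℕ) (hL : L ≠ []) :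
    ∃ S, Anchored S (tree (L ++ List.replicate q 0)) ∧
      tree (rel L ++ [q]) =
        flarb (tree (L ++ List.replicate q 0)) S (size (L ++ List.replicate q 0)) ∧
      nz L ≤ removed (tree (L ++ List.replicate q 0)) (tree (rel L ++ [q])) := by
  have e : tree (L ++ List.replicate q 0) = rightPath (enc 0 L) (chain (size L) q) := by
    unfold tree
    rw [enc_append, rightPath_append, path_zeros, zero_add]
  have hag : Agree (sel 0 L) 0 L := fun x _ _ => Iff.rfl
  have hout : ∀ x, size L ≤ x → x ∉ sel 0 L := by
    intro x hx h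
    have := sel_bd _ _ _ h
    omega
  refine ⟨sel 0 L, ⟨?_, ?_, ?_⟩, ?_, ?_⟩
  · rw [e]; exact sel_nodes _ _ _
  · rw [e]
    cases L with
    | nil => exact absurd rfl hL
    | cons c L =>
      cases c with
      | zero => simp [enc, rightPath, rootOf, sel]
      | succ c => simp [enc, rightPath, rootOf, sel]
  · rw [e]
    refine closed L 0 _ _ hag fun p d c hc hcS => ?_
    exact absurd hcS (hout c (by have := chain_links _ _ _ _ _ hc; omega))
  · rw [size_append, size_zeros, e]
    have hag' : Agree (insert (size L + q) (sel 0 L)) 0 L := by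
      intro x _ hx
      rw [mem_insert]
      constructor
      · rintro (h | h)
        · omega
        · exact h
      · exact Or.inr
    have h1 := cut_main L 0 _ (chain (size L) q) hag'
    have h2 : cut (insert (size L + q) (sel 0 L)) (chain (size L) q) =
        ([], chain (size L) q) := by
      apply cut_chain_out
      intro x hx1 hx2
      rw [mem_insert]
      rintro (h | h)
      · omega
      · exact hout x hx1 h
    rw [h2] at h1
    unfold flarb
    rw [cut, if_pos (mem_insert_self _ _), h1]
    unfold tree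
    rw [enc_append, size_rel]
    simp [enc, cut]
  · unfold removed
    rw [← leftL_card L 0]
    apply card_le_card
    rintro ⟨p, d, x⟩ h
    rw [mem_sdiff]
    refine ⟨?_, ?_⟩
    · rw [e]; exact leftL_links _ _ _ h
    · intro h'
      obtain ⟨rfl, -, -, -⟩ := leftL_bd _ _ _ _ _ h
      exact leftL_disj L [q] 0 p x _ h (links_leftL _ _ _ _ h')

/-! ### Sequences -/

inductive Run : List ℕ → ℕ → ℕ → List ℕ → Prop
  | refl (A : List ℕ) : Run A 0 0 A
  | step {A : List ℕ} {m c : ℕ} {L : List ℕ} {q : ℕ} (h : Run A m c (L ++ List.replicate q 0))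
      (hL : L ≠ []) : Run A (m + 1) (c + nz L) (rel L ++ [q])

theorem Run.trans {A B C : List ℕ} {m c m' c' : ℕ} (h : Run A m c B) (h' : Run B m' c' C) :
    Run A (m + m') (c + c') C := by
  induction h' with
  | refl => exact h
  | step _ hL ih =>
    have := Run.step ih hL
    rw [← add_assoc, ← add_assoc]
    exact this

def g : ℕ → ℕ
  | 0 => 0
  | k + 1 => 2 * g k + (2 ^ k - 1)

theorem rel_append (L M : List ℕ) : rel (L ++ M) = rel L ++ rel M := by
  induction L with
  | nil => rfl
  | cons c L ih => cases c <;> simp [rel, ih]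

theorem nz_append (L M : List ℕ) : nz (L ++ M) = nz L + nz M := by
  induction L with
  | nil => simp [nz]
  | cons c L ih => cases c <;> simp [nz, ih]; omega

theorem nz_zeros (q : ℕ) : nz (List.replicate q 0) = 0 := by
  induction q with
  | zero => rfl
  | succ q ih => rw [List.replicate_succ]; simp [nz, ih]

theorem rel_zeros (q : ℕ) : rel (List.replicate q 0) = List.replicate q 0 := by
  induction q with
  | zero => rfl
  | succ q ih => rw [List.replicate_succ]; simp [rel, ih]

theorem iter_append (i : ℕ) (L M : List ℕ) : rel^[i] (L ++ M) = rel^[i] L ++ rel^[i] M := by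
  induction i generalizing L M with
  | zero => rfl
  | succ i ih => rw [Function.iterate_succ_apply, Function.iterate_succ_apply,
      Function.iterate_succ_apply, rel_append, ih]

theorem iter_single (m i : ℕ) (h : i ≤ m) : rel^[i] [m] = List.replicate i 0 ++ [m - i] := by
  induction i with
  | zero => rfl
  | succ i ih =>
    rw [Function.iterate_succ_apply', ih (by omega), rel_append, rel_zeros]
    obtain ⟨j, hj⟩ : ∃ j, m - i = j + 1 := ⟨m - i - 1, by omega⟩
    rw [hj]
    simp only [rel]
    rw [show m - (i + 1) = j by omega, List.replicate_succ', List.append_assoc]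
    rfl

theorem rel_ne (L : List ℕ) (h : L ≠ []) : rel L ≠ [] := by
  cases L with
  | nil => exact absurd rfl h
  | cons c L => cases c <;> simp [rel]

theorem iter_ne (i : ℕ) (L : List ℕ) (h : L ≠ []) : rel^[i] L ≠ [] := by
  induction i with
  | zero => exact h
  | succ i ih => rw [Function.iterate_succ_apply']; exact rel_ne _ ih

theorem main (k : ℕ) : ∀ A : List ℕ, A ≠ [] →
    Run A (2 ^ k - 1) (g k + ∑ i ∈ range (2 ^ k - 1), nz (rel^[i] A))
      (rel^[2 ^ k - 1] A ++ List.replicate (2 ^ k - 1) 0) := by
  induction k with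
  | zero =>
    intro A _
    simpa [g] using Run.refl A
  | succ k ih =>
    intro A hA
    set m := 2 ^ k - 1 with hm
    have e : 2 ^ (k + 1) - 1 = (m + 1) + m := by
      have : 1 ≤ 2 ^ k := Nat.one_le_two_pow
      rw [pow_succ]; omega
    have r1 := Run.step (ih A hA) (iter_ne _ A hA)
    rw [← Function.iterate_succ_apply' rel] at r1
    have hne : rel^[m + 1] A ++ [m] ≠ [] := by simp
    have r2 := ih _ hne
    have r3 := r1.trans r2
    rw [e]
    have e1 : rel^[m] (rel^[m + 1] A ++ [m]) ++ List.replicate m 0 =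
        rel^[m + 1 + m] A ++ List.replicate (m + 1 + m) 0 := by
      rw [iter_append, iter_single m m le_rfl, ← Function.iterate_add_apply, Nat.sub_self,
        add_comm m (m + 1), List.append_assoc]
      congr 1
      rw [List.replicate_add, List.replicate_succ']
    have e2 : ∑ i ∈ range m, nz (rel^[i] (rel^[m + 1] A ++ [m])) =
        ∑ i ∈ range m, nz (rel^[m + 1 + i] A) + m := by
      rw [show ∑ i ∈ range m, nz (rel^[m + 1 + i] A) + m =
        ∑ i ∈ range m, (nz (rel^[m + 1 + i] A) + 1) by
          rw [Finset.sum_add_distrib]; simp]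
      refine Finset.sum_congr rfl fun i hi => ?_
      rw [mem_range] at hi
      rw [iter_append, nz_append, iter_single m i hi.le, nz_append, nz_zeros,
        ← Function.iterate_add_apply, add_comm i (m + 1)]
      obtain ⟨j, hj⟩ : ∃ j, m - i = j + 1 := ⟨m - i - 1, by omega⟩
      rw [hj]
      simp [nz]
    rw [e1, e2] at r3
    have e3 : g (k + 1) + ∑ i ∈ range (m + 1 + m), nz (rel^[i] A) =
        g k + ∑ i ∈ range m, nz (rel^[i] A) + nz (rel^[m] A) +
          (g k + (∑ i ∈ range m, nz (rel^[m + 1 + i] A) + m)) := by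
      rw [Finset.sum_range_add, Finset.sum_range_succ, g]
      omega
    rw [e3]
    exact r3

theorem iter_zero (i : ℕ) : rel^[i] [0] = [0] := by
  induction i with
  | zero => rfl
  | succ i ih => rw [Function.iterate_succ_apply', ih]; rfl

theorem run_zero (k : ℕ) : Run [0] (2 ^ k - 1) (g k) (List.replicate (2 ^ k) 0) := by
  have h := main k [0] (by simp)
  have e : ∑ i ∈ range (2 ^ k - 1), nz (rel^[i] [0]) = 0 := by
    apply Finset.sum_eq_zero
    intro i _
    rw [iter_zero]
    rfl
  rw [e, add_zero, iter_zero] at h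
  have e2 : [0] ++ List.replicate (2 ^ k - 1) 0 = List.replicate (2 ^ k) 0 := by
    have : 1 ≤ 2 ^ k := Nat.one_le_two_pow
    obtain ⟨j, hj⟩ : ∃ j, 2 ^ k = j + 1 := ⟨2 ^ k - 1, by omega⟩
    rw [hj, List.replicate_succ]
    rfl
  rw [e2] at h
  exact h

theorem run_more (j : ℕ) (B : List ℕ) (hB : B ≠ []) : ∃ c C, Run B j c C ∧ C ≠ [] := by
  induction j with
  | zero => exact ⟨0, B, Run.refl B, hB⟩
  | succ j ih =>
    obtain ⟨c, C, h, hC⟩ := ih
    have h' : Run B j c (C ++ List.replicate 0 0) := by simpa using h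
    exact ⟨_, _, Run.step h' hC, by simp⟩

theorem run_any (k m : ℕ) (h : 2 ^ k - 1 ≤ m) : ∃ c B, Run [0] m c B ∧ g k ≤ c := by
  obtain ⟨c, C, h1, _⟩ := run_more (m - (2 ^ k - 1)) (List.replicate (2 ^ k) 0) (by
    have : 1 ≤ 2 ^ k := Nat.one_le_two_pow
    intro h
    rw [List.replicate_eq_nil_iff] at h
    omega)
  have h2 := (run_zero k).trans h1
  rw [Nat.add_sub_cancel' h] at h2
  exact ⟨_, _, h2, Nat.le_add_right _ _⟩

theorem flarb_of_run {m c : ℕ} {B : List ℕ} (h : Run [0] m c B) :
    ∃ T : ℕ → BinaryTree ℕ, FlarbSeq (m + 1) T ∧ T (m + 1) = tree B ∧ size B = m + 1 ∧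
      c ≤ ∑ i ∈ range (m + 1), removed (T i) (T (i + 1)) := by
  generalize hA : ([0] : List ℕ) = A at h
  induction h with
  | refl =>
    subst hA
    refine ⟨fun i => if i = 0 then .nil else tree [0], ⟨by simp, fun i hi => ?_⟩, by simp,
      by simp [size], Nat.zero_le _⟩
    obtain rfl : i = 0 := by omega
    refine ⟨∅, ⟨by simp, by simp [rootOf], by simp [links]⟩, ?_⟩
    simp [tree, enc, rightPath, chain, flarb, cut]
  | @step m c L q h hL ih =>
    obtain ⟨T, ⟨h1, h2⟩, h3, h4, h5⟩ := ih
    obtain ⟨S, hS1, hS2, hS3⟩ := step L q hL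
    obtain ⟨T', hT1, hT2⟩ : ∃ T' : ℕ → BinaryTree ℕ, (∀ i, i ≤ m + 1 → T' i = T i) ∧
        T' (m + 1 + 1) = tree (rel L ++ [q]) :=
      ⟨fun i => if i ≤ m + 1 then T i else tree (rel L ++ [q]), fun i hi => if_pos hi,
        if_neg (by omega)⟩
    refine ⟨T', ⟨by rw [hT1 0 (by omega)]; exact h1, ?_⟩, hT2, ?_, ?_⟩
    · intro i hi
      rcases Nat.lt_or_ge i (m + 1) with hi' | hi'
      · obtain ⟨S', a1, a2⟩ := h2 i hi'
        rw [hT1 i (by omega), hT1 (i + 1) (by omega)]
        exact ⟨S', a1, a2⟩
      · obtain rfl : i = m + 1 := by omega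
        rw [hT1 (m + 1) le_rfl, hT2, h3, ← h4]
        exact ⟨S, hS1, hS2⟩
    · rw [size_append, size_rel]
      rw [size_append, size_zeros] at h4
      simp only [size]
      omega
    · rw [Finset.sum_range_succ]
      have e : ∑ i ∈ range (m + 1), removed (T' i) (T' (i + 1))
          = ∑ i ∈ range (m + 1), removed (T i) (T (i + 1)) := by
        refine Finset.sum_congr rfl fun i hi => ?_
        rw [mem_range] at hi
        rw [hT1 i (by omega), hT1 (i + 1) (by omega)]
      rw [e, hT1 (m + 1) le_rfl, hT2, h3]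
      omega

theorem g_eq (k : ℕ) : 2 * g k + 2 ^ (k + 1) = k * 2 ^ k + 2 := by
  induction k with
  | zero => simp [g]
  | succ k ih =>
    have : 1 ≤ 2 ^ k := Nat.one_le_two_pow
    obtain ⟨j, hj⟩ : ∃ j, 2 ^ k = j + 1 := ⟨2 ^ k - 1, by omega⟩
    rw [g]
    have e1 : 2 ^ (k + 1 + 1) = 4 * 2 ^ k := by ring
    have e2 : (k + 1) * 2 ^ (k + 1) = 2 * (k * 2 ^ k) + 2 * 2 ^ k := by ring
    have e3 : 2 ^ (k + 1) = 2 * 2 ^ k := by ring
    rw [e3] at ih
    rw [e1, e2]
    omega

/-- The main bound. -/
theorem bound (n : ℕ) (hn : 1 ≤ n) : ∃ T : ℕ → BinaryTree ℕ, FlarbSeq n T ∧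
    g (Nat.log 2 n) ≤ ∑ i ∈ range n, removed (T i) (T (i + 1)) := by
  have h1 : 2 ^ Nat.log 2 n ≤ n := Nat.pow_log_le_self 2 (by omega)
  obtain ⟨c, B, h2, h3⟩ := run_any (Nat.log 2 n) (n - 1) (by omega)
  obtain ⟨T, hT1, _, _, hT2⟩ := flarb_of_run h2
  rw [Nat.sub_add_cancel hn] at hT1 hT2
  exact ⟨T, hT1, h3.trans hT2⟩

theorem bound_real (n : ℕ) : ∃ T : ℕ → BinaryTree ℕ, FlarbSeq n T ∧
    (n : ℝ) * (Real.logb 2 n - 3) / 4 ≤ ∑ i ∈ range n, (removed (T i) (T (i + 1)) : ℝ) := by
  rcases Nat.eq_zero_or_pos n with rfl | hn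
  · exact ⟨fun _ => .nil, ⟨rfl, fun i hi => by omega⟩, by simp⟩
  obtain ⟨T, hT, hb⟩ := bound n hn
  refine ⟨T, hT, ?_⟩
  have hb' : (g (Nat.log 2 n) : ℝ) ≤ ∑ i ∈ range n, (removed (T i) (T (i + 1)) : ℝ) := by
    exact_mod_cast hb
  refine le_trans ?_ hb'
  set k := Nat.log 2 n with hk
  have h1 : (2 : ℝ) ^ k ≤ n := by exact_mod_cast Nat.pow_log_le_self 2 (by omega : n ≠ 0)
  have h2 : (n : ℝ) < 2 ^ (k + 1) := by exact_mod_cast Nat.lt_pow_succ_log_self (by norm_num) n
  have h3 : Real.logb 2 n ≤ k + 1 := by
    rw [Real.logb_le_iff_le_rpow (by norm_num) (by exact_mod_cast hn)]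
    have : (2 : ℝ) ^ ((k : ℝ) + 1) = 2 ^ (k + 1) := by
      rw [← Nat.cast_succ, Real.rpow_natCast]
    rw [this]
    exact h2.le
  have h4 : 2 * (g k : ℝ) + 2 ^ (k + 1) = k * 2 ^ k + 2 := by exact_mod_cast g_eq k
  have hn0 : (0 : ℝ) < n := by exact_mod_cast hn
  have h5 : (n : ℝ) * (Real.logb 2 n - 3) ≤ n * (k - 2) := by nlinarith
  have h6 : (2 : ℝ) ^ (k + 1) = 2 * 2 ^ k := by ring
  rcases Nat.lt_or_ge k 2 with h | h
  · have hk2 : (k : ℝ) ≤ 1 := by exact_mod_cast (by omega : k ≤ 1)
    have : (n : ℝ) * (k - 2) ≤ 0 := by nlinarith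
    have hg : (0 : ℝ) ≤ g k := Nat.cast_nonneg _
    linarith
  · have hk2 : (2 : ℝ) ≤ k := by exact_mod_cast h
    have h7 : (n : ℝ) * (k - 2) ≤ (2 * 2 ^ k) * (k - 2) := by
      apply mul_le_mul_of_nonneg_right
      · rw [← h6]; exact h2.le
      · linarith
    nlinarith

end Pool.Agent.N609.Flarb
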